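import Mathlib
import Pool.Agent.MP_edaf86_an.K.LevB2

namespace SK
open SJ Set Filter Topology MeasureTheory Metric Function
open scoped ENNReal

open LevB2X in
theorem levB (hV : VMoveStmt) (hZ : ZStmt) (hS : VertS2Stmt) (hC : Conj2Stmt) : LevBStmt := by
  intro ι _ _
  obtain ⟨Kh, hKh, hS⟩ := hS (ι → ℝ)
  obtain ⟨KZ, hKZ, hZ⟩ := hZ
  refine ⟨Kh, Kh + 2 * KZ, hKh, by linarith, fun Kr Kq Kz hKr hKq hKz => ?_⟩
  obtain ⟨KV, hKV, hV⟩ := hV (ι → ℝ) Kq hKq
  obtain ⟨KS, hKS, hS⟩ := hS Kq hKq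
  obtain ⟨KG, hKG, hC⟩ := hC (ι → ℝ) Kq hKq
  have T0 : 0 < KG * KS * KV * KZ := by positivity
  refine ⟨800 * (KG * KS * KV * KZ) + 64 * Kq + Kr + 200 * KG + 3300, by linarith,
    fun N P P' R ε lam F Ks hKs => ?_⟩
  have hN := F.hN
  have l0 := F.l0
  have P1 : 1 ≤ P' := F.P1.trans F.PP
  have N1 : 1 ≤ N := by linarith
  have NP : N ≤ N * P' := le_mul_of_one_le_right (by linarith) P1
  have PN : P' ≤ N * P' := le_mul_of_one_le_left (by linarith) N1
  have hR : (200 * KG + 3300) * (N * P') ≤ R := by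
    have : 0 < Kr := by linarith
    refine le_trans ?_ F.hR
    rw [mul_assoc _ N]
    exact (mul_le_mul_of_nonneg_right (by linarith) (by positivity)).trans
      (le_mul_of_one_le_right (by positivity) (one_le_pow₀ F.P1))
  have R0 : 0 < R := lt_of_lt_of_le (by positivity) hR
  have he : ε = lam * (N * P') := by rw [F.he, mul_assoc]
  have e0 : 0 < ε := by rw [he]; positivity
  have hs : ε * (N * P') ≤ 1 := by rw [← mul_assoc]; exact F.sm
  have e1 : ε ≤ 1 := (le_mul_of_one_le_right e0.le (by linarith)).trans hs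
  have l1 : lam ≤ 1 := (le_mul_of_one_le_right l0.le (by linarith)).trans (he ▸ e1)
  refine ⟨1 + (KG * (Ks * R + (400 * P') ^ 2 * (16 * R) / (N * P')) *
    (KS * (N * P') * (KV * (KZ / ε))) ^ 2 + KG * (400 * P') * (KS * (N * P') * (16 * R) *
      (KV * (KZ / ε)) ^ 2 + KS * (N * P') * (KV * (KZ / ε + KZ / ε ^ 2) * (16 * R)))),
    le_add_of_nonneg_right (by positivity),
    fun M m ℓ0 ℓ κ0 κs p uu A Θ R0' Rq q0 e0' e20 q e e2 ν a b a' b' Z h0 hl hκ C0 C1 S0 S1 hA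
      hZA => ?_⟩
  have ℓp : 0 < ℓ := by rw [hl]; positivity
  have ℓl : ℓ ≤ ℓ0 := hl ▸ mul_le_of_le_one_left h0.le l1
  obtain ⟨κ, hk⟩ : ∃ κ, κ = ℓ / R / 16 := ⟨_, rfl⟩
  have k0 : 0 < κ := by rw [hk]; positivity
  have k1 : κs = N * P' * κ := by rw [hκ, hk, hl, he]; ring
  have k2 : ℓ / R = 16 * κ := by rw [hk]; ring
  have k3 : ℓ = 16 * R * κ := by rw [hk]; field_simp
  have k4 : N * κ ≤ κs := k1 ▸ mul_le_mul_of_nonneg_right NP k0.le
  have k5 : P' * κ ≤ κs := k1 ▸ mul_le_mul_of_nonneg_right PN k0.le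
  have k6 : (Kr + 3300) * κ ≤ κs := (mul_le_mul_of_nonneg_right (by linarith) k0.le).trans k4
  have k7 : 64 * κ ≤ Kr * κ := mul_le_mul_of_nonneg_right (by linarith) k0.le
  have k8 : 16 * ((200 * KG + 3300) * κs) ≤ ℓ := by
    rw [k1, k3]
    nlinarith [mul_le_mul_of_nonneg_right hR k0.le]
  have s0 : 0 < κs := by rw [k1]; positivity
  have k9 : 64 * κs ≤ Kh * κs := mul_le_mul_of_nonneg_right hKh s0.le
  have k10 : κs ≤ KG * κs := le_mul_of_one_le_left s0.le hKG
  have k11 : 2 * P' * (ℓ / R) ≤ 32 * κs := by rw [k2]; linarith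
  have k12 : ∀ d, d ≤ 2 * P' * (ℓ / R) → 2 * Kq * d ≤ κs := fun d hd => by
    refine (mul_le_mul_of_nonneg_left hd (by positivity)).trans ?_
    rw [k1, k2]
    nlinarith [mul_le_mul_of_nonneg_right (show 64 * Kq ≤ N by linarith)
      (show 0 ≤ P' * κ by positivity)]
  have s1 : κs ≤ ℓ0 / R / 16 := hκ ▸ mul_le_of_le_one_left (by positivity) e1
  have Q0 : QE q0 e0' κs (Kh * κs) Kq :=
    C0.qe.mono s0 s1 (mul_le_mul (by linarith) s1 s0.le (by linarith))
  have dsp : ∀ z, ‖b' z - z‖ ≤ 2 * P' * (ℓ / R) := fun z => (S1.disp z).trans (by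
    have : 0 ≤ P' * (ℓ / R) := by positivity
    linarith)
  have Q1 := C1.qe
  have L2 := C1.e2l
  have E2 := C1.e2C
  rw [← hk] at Q1 L2 E2 hZA ⊢
  obtain ⟨-, ZB, hB⟩ := hZ ε κ e0 e1 k0
  obtain ⟨v1, v2, v3, -⟩ := hV q e κ (Kr * κ) ZB _ _ (1 / 2) k0 (by linarith) Q1 hB.zC
    (by rw [le_div_iff₀ e0]; linarith) hB.zb (fun v hv => hB.z0 v (by nlinarith)) one_half_pos
    (by norm_num) hB.zs
  obtain ⟨-, -, v4, -⟩ := hV q e κ (Kr * κ) Z _ _ ε k0 (by linarith) Q1 hZA.zC hKz hZA.zb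
    (fun v hv => hZA.z0 v (by linarith)) e0 e1 hZA.zs
  obtain ⟨S, t1, t2, t3, t4, t5, t6, t7⟩ := hS q0 e0' e2 κs κ k0 (by linarith) Q0 C1.e2b E2
  obtain ⟨Γ, g1, g2, g3, g4, g5, g6⟩ := hC q0 e0' κs b' _ _ _ s0 (Q0.mono s0 le_rfl (by linarith))
    (S1.bC.mono (show _ ≤ 400 * P' by linarith) le_rfl) (by linarith) S1.li.injective dsp
    fun z hz => by
      have h1 : ConjX.chi q0 e0' κs (b' z) ≠ 0 := fun h => hz <| by
        obtain ⟨h2, h3⟩ := S1.sol z
        simp only [h, zero_mul, add_zero] at h3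
        exact Prod.ext (funext h3) h2
      obtain ⟨h2, h3⟩ := ConjX.chi_ne s0 h1
      obtain ⟨h4, h5⟩ := near Q0 s0 (k12 _ (dsp z))
      exact ⟨by linarith, by linarith⟩
  have d1 := vm_disp (q := q) (e := e) hB.zb
  have d2 : ∀ y, ‖S (vm q e ZB y) - y‖ ≤ 528 * κs := fun y =>
    (norm_sub_le_norm_sub_add_norm_sub _ (vm q e ZB y) _).trans
      (by linarith [t4 (vm q e ZB y), (d1 y).2])
  have t1' : C2B S (KS * (N * P')) (KS * (N * P') * (16 * R) / ℓ) :=
    t1.mono (le_of_eq (by rw [k1]; field_simp)) (le_of_eq (by rw [k1, k3]; field_simp))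
  have cc := comp_div (g1.mono le_rfl (le_of_eq (show _ =
      KG * (Ks * R + (400 * P') ^ 2 * (16 * R) / (N * P')) / ℓ by rw [k2, k1, k3]; field_simp)))
    (comp_div t1' (v1.mono le_rfl (le_of_eq (show _ =
      KV * (KZ / ε + KZ / ε ^ 2) * (16 * R) / ℓ by rw [k3]; field_simp))))
  refine ⟨fun y => Γ (S (vm q e ZB y)), ⟨⟨cc.cd, fun y => ?_, fun y => (cc.d2 y).trans
    (div_le_div_of_nonneg_right (le_add_of_nonneg_left zero_le_one) ℓp.le)⟩,
    g2.comp (t3.comp (inj_of v3)), fun y => ?_, fun y hy => ?_, fun y k hy => ?_⟩,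
    fun y c0 c1 => ?_⟩
  · have a1 : ‖fderiv ℝ (fun y => S (vm q e ZB y)) y‖ ≤ KS * (KV * (KZ / ε)) := by
      refine (norm_fderiv_comp_le' t1.cd v1.cd y).trans ?_
      rcases v2 y with h | ⟨h, h'⟩
      · refine (mul_le_of_le_one_right (norm_nonneg _) h).trans ((t1'.d1 _).trans
          (mul_le_mul_of_nonneg_left ?_ (by positivity)))
        refine le_trans ?_ (le_mul_of_one_le_left (by positivity) hKV)
        rw [le_div_iff₀' e0]
        linarith
      · refine mul_le_mul (t7 _ fun _ h2 => (L2 y _ h h' ?_).1) (v1.d1 y) (norm_nonneg _)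
          (by positivity)
        have h3 := abs_le.1 (d1 y).1
        have h4 := abs_le.1 h2
        have h5 := abs_lt.1 h'
        exact abs_lt.2 ⟨by linarith, by linarith⟩
    refine (norm_fderiv_comp_le' g1.cd (t1.cd.comp v1.cd) y).trans
      ((mul_le_mul (g1.d1 _) a1 (norm_nonneg _) (by positivity)).trans ?_)
    rw [he, show KG * (400 * P') * (KS * (KV * (KZ / (lam * (N * P'))))) =
      800 * (KG * KS * KV * KZ) / N / (2 * lam) by field_simp; ring]
    exact div_le_div_of_nonneg_right ((div_le_one (by linarith)).2 (by linarith)) (by positivity)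
  · refine (norm_sub_le_norm_sub_add_norm_sub _ (S (vm q e ZB y)) _).trans ?_
    linarith [d2 y, g3 (S (vm q e ZB y)), mul_le_mul_of_nonneg_left k11 (zero_le_one.trans hKG)]
  · have a1 : vm q e ZB y = y := by
      rw [vm, (C1.top y (by linarith)).1, st_zero (by norm_num), zero_mul, add_zero]
    have a2 := (C0.top y (by linarith)).1
    simp only [a1, t5 y (by linarith), g4 y (by linarith)]
  · have a1 : (S (vm q e ZB y)).1 = y.1 := t2 _
    rcases g5 (S (vm q e ZB y)) with h | ⟨t, h, h'⟩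
    · simp only [h, a1]
    · have a2 : A k (b' ((S (vm q e ZB y)).1, t)) = 0 := hy _ <| by
        have a3 := norm_sub_le_norm_sub_add_norm_sub (b' ((S (vm q e ZB y)).1, t))
          ((S (vm q e ZB y)).1, t) y
        have a4 := norm_sub_le_norm_sub_add_norm_sub ((S (vm q e ZB y)).1, t) (S (vm q e ZB y)) y
        have a5 : ‖((S (vm q e ZB y)).1, t) - S (vm q e ZB y)‖ ≤ 96 * κs :=
          norm_prod_le_iff.2 ⟨by simpa using s0.le, h⟩
        linarith [d2 y, dsp ((S (vm q e ZB y)).1, t)]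
      simp only [h', (S1.sol _).2 k, hA k _ a2, zero_mul, mul_zero, add_zero]
      rw [a1]
  · obtain ⟨a1, a2⟩ := chi2_ne s0 c0
    obtain ⟨b1, b2, b3⟩ := undo Q1 k0 (by linarith) e0 e1 hZA hB (inj_of v4) c1
    have y1 : y = b' (a y) := S1.uniq _ _ <| by
      have h := S0.sol (a y)
      rw [S0.ri y] at h
      simpa only [Sol, ConjX.chi_one s0 (by linarith : 4 ≤ q0 y) (by linarith), one_mul] using h
    obtain ⟨z, hz⟩ : ∃ z, z = a y := ⟨_, rfl⟩
    rw [← hz] at y1 b1 b2 b3 ⊢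
    obtain ⟨f1, f2⟩ := near Q0 s0 (k12 _ (dsp z))
    rw [← y1] at f1 f2
    have f3 := abs_le.1 (show |e0' z| ≤ 7 * κs by linarith)
    have f4 := abs_lt.1 b2
    obtain ⟨f5, f6⟩ := Q0.cov z (z.2 - 2 * e z) (by linarith) (by linarith)
      (abs_le.2 ⟨by linarith, by linarith⟩)
    have f7 := (L2 z (z.2 - e0' z) (by linarith) (by linarith)
      (abs_lt.2 ⟨by linarith, by linarith⟩)).2 (abs_le.2 ⟨by linarith, by linarith⟩)
    have f8 : S (rho e z) = rho e0' z := by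
      rw [rho, t6 _ (by linarith) (by rw [f6]; exact abs_le.2 ⟨by linarith, by linarith⟩), f6]
      simp only
      rw [show z.2 - 2 * e z - (e0' z + (z.2 - 2 * e z - z.2)) = z.2 - e0' z by ring, f7, rho]
      refine Prod.ext rfl ?_
      simp only
      ring
    simp only [b3, f8]
    rw [g6 z (by linarith) (by linarith), ← y1]

end SK
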